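import Mathlib

/-!
Arithmetic facts used for the MRDP theorem: binomial coefficients, factorials and
products of arithmetic progressions are obtained from exponentiation.
-/

namespace Pool.Agent.MRDP

open Finset Nat

/-- the binomial coefficient as a digit -/
theorem choose_eq_digit (n k : ℕ) :
    n.choose k = ((2 ^ n + 2) ^ n / (2 ^ n + 1) ^ k) % (2 ^ n + 1) := by
  set U := 2 ^ n + 1 with hU
  have hUpos : 0 < U := by positivity
  rcases lt_or_ge n k with hnk | hnk
  · rw [Nat.choose_eq_zero_of_lt hnk]
    have h1 : (2 ^ n + 2) ^ n < U ^ k := by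
      rcases Nat.eq_zero_or_pos n with hn | hn
      · subst hn
        simp only [pow_zero]
        have : 1 < U := by simp [hU]
        exact Nat.one_lt_pow (by omega) this
      · have h2 : (U + 1) ^ n < U ^ (n + 1) := by
          have h3 : (U + 1) ^ n = ∑ m ∈ range (n + 1), U ^ m * (n.choose m) := by
            rw [add_pow]
            simp
          have h4 : ∑ m ∈ range (n + 1), U ^ m * (n.choose m) ≤
              ∑ m ∈ range (n + 1), U ^ n * (n.choose m) := by
            apply Finset.sum_le_sum
            intro m hm
            apply Nat.mul_le_mul_right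
            exact Nat.pow_le_pow_right hUpos (by rw [mem_range] at hm; omega)
          rw [h3]
          refine lt_of_le_of_lt h4 ?_
          rw [← Finset.mul_sum, Nat.sum_range_choose, pow_succ]
          exact Nat.mul_lt_mul_of_pos_left (by omega) (by positivity)
        calc (2 ^ n + 2) ^ n = (U + 1) ^ n := by rw [hU]
          _ < U ^ (n + 1) := h2
          _ ≤ U ^ k := Nat.pow_le_pow_right hUpos hnk
    rw [Nat.div_eq_of_lt h1]
    simp
  · have h3 : (2 ^ n + 2) ^ n = ∑ m ∈ range (n + 1), U ^ m * (n.choose m) := by
      rw [show 2 ^ n + 2 = U + 1 by rw [hU], add_pow]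
      simp
    have hsplit : ∑ m ∈ range (n + 1), U ^ m * (n.choose m) =
        ∑ m ∈ range k, U ^ m * (n.choose m) +
          U ^ k * (n.choose k + U * ∑ m ∈ range (n - k), U ^ m * (n.choose (k + 1 + m))) := by
      have e1 : range (n + 1) = range (k + (1 + (n - k))) := by congr 1; omega
      rw [e1, Finset.sum_range_add, Finset.sum_range_add]
      congr 1
      simp only [sum_range_one, add_zero, Finset.mul_sum, mul_add]
      congr 1
      apply Finset.sum_congr rfl
      intro m _
      rw [pow_add, pow_add, pow_one]
      have : k + (1 + m) = k + 1 + m := by ring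
      rw [this]
      ring
    have hlow : ∑ m ∈ range k, U ^ m * (n.choose m) < U ^ k := by
      rcases Nat.eq_zero_or_pos k with hk | hk
      · subst hk; simp
      · have h4 : ∑ m ∈ range k, U ^ m * (n.choose m) ≤
            ∑ m ∈ range k, U ^ (k - 1) * (n.choose m) := by
          apply Finset.sum_le_sum
          intro m hm
          apply Nat.mul_le_mul_right
          exact Nat.pow_le_pow_right hUpos (by rw [mem_range] at hm; omega)
        refine lt_of_le_of_lt h4 ?_
        rw [← Finset.mul_sum]
        have h5 : ∑ m ∈ range k, n.choose m ≤ 2 ^ n := by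
          rw [← Nat.sum_range_choose]
          apply Finset.sum_le_sum_of_subset
          intro x hx
          rw [mem_range] at *
          omega
        calc U ^ (k - 1) * ∑ m ∈ range k, n.choose m ≤ U ^ (k - 1) * 2 ^ n :=
              Nat.mul_le_mul_left _ h5
          _ < U ^ (k - 1) * U := Nat.mul_lt_mul_of_pos_left (by omega) (by positivity)
          _ = U ^ k := by rw [← pow_succ]; congr 1; omega
    rw [h3, hsplit]
    rw [Nat.add_mul_div_left _ _ (by positivity), Nat.div_eq_of_lt hlow, zero_add,
      Nat.add_mul_mod_self_left]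
    symm
    apply Nat.mod_eq_of_lt
    have h5 : n.choose k ≤ 2 ^ n := by
      rw [← Nat.sum_range_choose]
      exact Finset.single_le_sum (f := fun m => n.choose m) (fun _ _ => Nat.zero_le _)
        (by rw [mem_range]; omega)
    omega

/-- the factorial from powers and binomials -/
theorem factorial_eq_div (n : ℕ) :
    n ! = (n ^ 2 * (n ^ n + 1) + 1) ^ n / (n ^ 2 * (n ^ n + 1) + 1).choose n := by
  set r := n ^ 2 * (n ^ n + 1) + 1 with hr
  rcases Nat.eq_zero_or_pos n with hn | hn
  · subst hn
    simp
  have hnr : n ≤ r := by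
    rw [hr]
    nlinarith [Nat.zero_le (n ^ n)]
  have hch : 0 < r.choose n := Nat.choose_pos hnr
  have hdf : r.descFactorial n = n ! * r.choose n := Nat.descFactorial_eq_factorial_mul_choose r n
  have hle : r.descFactorial n ≤ r ^ n := Nat.descFactorial_le_pow r n
  -- lower bound
  have hlow : ∀ m, m ≤ n → r ^ m ≤ r.descFactorial m + m * n * r ^ (m - 1) := by
    intro m
    induction m with
    | zero => intro _; simp
    | succ m ih =>
      intro hm
      have ih' := ih (by omega)
      rw [Nat.descFactorial_succ, pow_succ]
      have h1 : r.descFactorial m ≤ r ^ m := Nat.descFactorial_le_pow r m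
      have h2 : (r - m) * r.descFactorial m + m * r.descFactorial m = r * r.descFactorial m := by
        rw [← Nat.add_mul]; congr 1; omega
      have h3 : m * r.descFactorial m ≤ n * r ^ m := Nat.mul_le_mul (by omega) h1
      have h4 : m * n * r ^ (m - 1) * r = m * n * r ^ m ∨ m = 0 := by
        rcases Nat.eq_zero_or_pos m with h | h
        · right; exact h
        · left
          rw [mul_assoc, ← pow_succ]
          congr 2
          omega
      have h5 : m * n * r ^ (m - 1) * r = m * n * r ^ m := by
        rcases h4 with h4 | h4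
        · exact h4
        · subst h4; simp
      calc r ^ m * r ≤ (r.descFactorial m + m * n * r ^ (m - 1)) * r := Nat.mul_le_mul_right _ ih'
        _ = r * r.descFactorial m + m * n * r ^ m := by rw [Nat.add_mul, h5]; ring
        _ = (r - m) * r.descFactorial m + m * r.descFactorial m + m * n * r ^ m := by rw [h2]
        _ ≤ (r - m) * r.descFactorial m + n * r ^ m + m * n * r ^ m := by omega
        _ = (r - m) * r.descFactorial m + (m + 1) * n * r ^ (m + 1 - 1) := by
            rw [Nat.add_sub_cancel]; ring
  have hl := hlow n le_rfl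
  have hfac : n ! ≤ n ^ n := Nat.factorial_le_pow n
  -- n! * (r^n - desc) < desc
  have hpow : r ^ n = r * r ^ (n - 1) := by
    rw [← pow_succ']; congr 1; omega
  have hpos : 0 < r ^ (n - 1) := by positivity
  symm
  rw [Nat.div_eq_iff hch]
  constructor
  · rw [← hdf]; exact hle
  · -- r^n < (n!+1) * choose, i.e. r^n ≤ n! * choose + choose - 1
    have key : r ^ n < (n ! + 1) * r.choose n := by
      have h1 : n ! * (r ^ n) < n ! * ((n ! + 1) * r.choose n) := by
        have h2 : n ! * ((n ! + 1) * r.choose n) = (n ! + 1) * r.descFactorial n := by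
          rw [hdf]; ring
        rw [h2]
        have h3 : n ! * (n * n * r ^ (n - 1)) < r.descFactorial n := by
          have h4 : (n ! + 1) * (n * n) * r ^ (n - 1) < r ^ n := by
            rw [hpow]
            apply Nat.mul_lt_mul_of_pos_right _ hpos
            rw [hr]
            nlinarith
          have h5 : (n ! + 1) * (n * n) * r ^ (n - 1) =
              n ! * (n * n * r ^ (n - 1)) + n * n * r ^ (n - 1) := by ring
          omega
        calc n ! * r ^ n ≤ n ! * (r.descFactorial n + n * n * r ^ (n - 1)) :=
              Nat.mul_le_mul_left _ hl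
          _ = n ! * r.descFactorial n + n ! * (n * n * r ^ (n - 1)) := by ring
          _ < n ! * r.descFactorial n + r.descFactorial n := by omega
          _ = (n ! + 1) * r.descFactorial n := by ring
      exact Nat.lt_of_mul_lt_mul_left h1
    have h6 : (n ! + 1) * r.choose n = n ! * r.choose n + r.choose n := by ring
    omega

/-- product of the arithmetic progression `1 + t, ..., 1 + n t` -/
def prodAP (n t : ℕ) : ℕ := ∏ k ∈ range n, (1 + (k + 1) * t)

theorem prodAP_lt (n t : ℕ) (ht : 0 < t) : prodAP n t < t * (1 + n * t) ^ n + 1 := by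
  have h1 : prodAP n t ≤ ∏ _k ∈ range n, (1 + n * t) := by
    apply Finset.prod_le_prod'
    intro k hk
    rw [mem_range] at hk
    have : (k + 1) * t ≤ n * t := Nat.mul_le_mul_right _ hk
    omega
  rw [Finset.prod_const, Finset.card_range] at h1
  have h2 : (1 + n * t) ^ n ≤ t * (1 + n * t) ^ n := Nat.le_mul_of_pos_left _ ht
  omega

theorem prodAP_spec (n t q : ℕ) (ht : 0 < t) (hq : t * q ≡ 1 [MOD t * (1 + n * t) ^ n + 1]) :
    prodAP n t = (t ^ n * (n ! * (q + n).choose n)) % (t * (1 + n * t) ^ n + 1) := by
  have h1 : n ! * (q + n).choose n = ∏ k ∈ range n, (q + 1 + k) := by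
    rw [← Nat.ascFactorial_eq_prod_range, Nat.ascFactorial_eq_factorial_mul_choose]
  have h2 : t ^ n * (n ! * (q + n).choose n) = ∏ k ∈ range n, (t * (q + 1 + k)) := by
    rw [h1, Finset.prod_mul_distrib, Finset.prod_const, Finset.card_range]
  have h3 : t ^ n * (n ! * (q + n).choose n) ≡ prodAP n t [MOD t * (1 + n * t) ^ n + 1] := by
    rw [h2, prodAP]
    apply Nat.ModEq.prod
    intro k _
    have : t * (q + 1 + k) = t * q + (k + 1) * t := by ring
    rw [this]
    exact hq.add_right _
  have h4 := prodAP_lt n t ht
  rw [← Nat.mod_eq_of_lt h4]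
  exact h3.symm

theorem exists_q (n t : ℕ) : ∃ q, t * q ≡ 1 [MOD t * (1 + n * t) ^ n + 1] := by
  rcases Nat.eq_zero_or_pos t with ht | ht
  · subst ht; exact ⟨0, by simp [Nat.ModEq]⟩
  have hc : Nat.Coprime t (t * (1 + n * t) ^ n + 1) := by
    rw [Nat.coprime_mul_left_add_right]
    simp
  have h1 : 1 < t * (1 + n * t) ^ n + 1 := by
    have : 0 < t * (1 + n * t) ^ n := by positivity
    omega
  obtain ⟨m, hm⟩ := Nat.exists_mul_mod_eq_one_of_coprime hc h1
  exact ⟨m, by rw [Nat.ModEq, hm.2, Nat.mod_eq_of_lt h1]⟩

end Pool.Agent.MRDP
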