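import Pool.Agent.Common_MRDP.Arith

/-!
Diophantine functions: binomial coefficients, factorial, products of arithmetic progressions;
reduction to finitely many existential variables; bounded universal quantifiers.
-/

namespace Pool.Agent.MRDP

open Finset Nat Dioph Vector3 Fin2

open scoped Vector3 Dioph

section

variable {α : Type} {f g h : (α → ℕ) → ℕ}

theorem choose_dioph (df : DiophFn f) (dg : DiophFn g) :
    DiophFn fun v => (f v).choose (g v) := by
  have h1 : DiophFn fun v => ((2 ^ f v + 2) ^ f v / (2 ^ f v + 1) ^ g v) % (2 ^ f v + 1) :=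
    Dioph.mod_dioph
      (Dioph.div_dioph
        (Dioph.pow_dioph (Dioph.add_dioph (Dioph.pow_dioph (Dioph.const_dioph 2) df)
          (Dioph.const_dioph 2)) df)
        (Dioph.pow_dioph (Dioph.add_dioph (Dioph.pow_dioph (Dioph.const_dioph 2) df)
          (Dioph.const_dioph 1)) dg))
      (Dioph.add_dioph (Dioph.pow_dioph (Dioph.const_dioph 2) df) (Dioph.const_dioph 1))
  have h2 : (fun v => (f v).choose (g v)) =
      fun v => ((2 ^ f v + 2) ^ f v / (2 ^ f v + 1) ^ g v) % (2 ^ f v + 1) := by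
    funext v
    exact choose_eq_digit _ _
  rw [h2]
  exact h1

theorem factorial_dioph (df : DiophFn f) : DiophFn fun v => (f v)! := by
  have hr : DiophFn fun v => f v ^ 2 * (f v ^ f v + 1) + 1 :=
    Dioph.add_dioph (Dioph.mul_dioph (Dioph.pow_dioph df (Dioph.const_dioph 2))
      (Dioph.add_dioph (Dioph.pow_dioph df df) (Dioph.const_dioph 1))) (Dioph.const_dioph 1)
  have h1 := Dioph.div_dioph (Dioph.pow_dioph hr df) (choose_dioph hr df)
  have h2 : (fun v => (f v)!) = fun v => (f v ^ 2 * (f v ^ f v + 1) + 1) ^ f v /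
      (f v ^ 2 * (f v ^ f v + 1) + 1).choose (f v) := by
    funext v
    exact factorial_eq_div _
  rw [h2]
  exact h1

theorem descFactorial_dioph (df : DiophFn f) (dg : DiophFn g) :
    DiophFn fun v => (f v).descFactorial (g v) := by
  have h1 := Dioph.mul_dioph (factorial_dioph dg) (choose_dioph df dg)
  have h2 : (fun v => (f v).descFactorial (g v)) = fun v => (g v)! * (f v).choose (g v) := by
    funext v
    exact Nat.descFactorial_eq_factorial_mul_choose _ _
  rw [h2]
  exact h1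

theorem prodAP_dioph (df : DiophFn f) (dg : DiophFn g) (hg : ∀ v, 0 < g v) :
    DiophFn fun v => prodAP (f v) (g v) := by
  -- auxiliary function of three variables : n, t, q
  have key : DiophFn (fun v : Vector3 ℕ 2 => prodAP (v &0) (v &1 + 1)) := by
    rw [Dioph.diophFn_vec]
    -- variables: value, n, t
    have hd : Dioph {v : Vector3 ℕ 3 | ∃ q : ℕ,
        (v &2 + 1) * q ≡ 1 [MOD (v &2 + 1) * (1 + v &1 * (v &2 + 1)) ^ (v &1) + 1] ∧
        ((v &2 + 1) ^ (v &1) * ((v &1)! * (q + v &1).choose (v &1))) %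
          ((v &2 + 1) * (1 + v &1 * (v &2 + 1)) ^ (v &1) + 1) = v &0} := by
      apply Dioph.vec_ex1_dioph 3 (S := {w : Vector3 ℕ 4 |
        (w &3 + 1) * w &0 ≡ 1 [MOD (w &3 + 1) * (1 + w &2 * (w &3 + 1)) ^ (w &2) + 1] ∧
        ((w &3 + 1) ^ (w &2) * ((w &2)! * (w &0 + w &2).choose (w &2))) %
          ((w &3 + 1) * (1 + w &2 * (w &3 + 1)) ^ (w &2) + 1) = w &1})
      have ht : DiophFn (fun w : Vector3 ℕ 4 => w &3 + 1) := D&3 D+ D.1
      have hN : DiophFn (fun w : Vector3 ℕ 4 =>
          (w &3 + 1) * (1 + w &2 * (w &3 + 1)) ^ (w &2) + 1) :=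
        (ht D* (Dioph.pow_dioph (D.1 D+ (D&2 D* ht)) (D&2))) D+ D.1
      apply Dioph.inter
      · exact Dioph.modEq_dioph (ht D* D&0) (D.1) hN
      · exact Dioph.eq_dioph (Dioph.mod_dioph
          ((Dioph.pow_dioph ht (D&2)) D* (factorial_dioph (D&2) D* choose_dioph (D&0 D+ D&2) (D&2)))
          hN) (D&1)
    refine Dioph.ext hd ?_
    intro v
    change (∃ q : ℕ, _ ∧ _) ↔ prodAP (v &1) (v &2 + 1) = v &0
    constructor
    · rintro ⟨q, h1, h2⟩
      rw [← h2]
      exact prodAP_spec _ _ q (Nat.succ_pos _) h1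
    · intro h
      obtain ⟨q, hq⟩ := exists_q (v &1) (v &2 + 1)
      refine ⟨q, hq, ?_⟩
      rw [← h]
      exact (prodAP_spec _ _ q (Nat.succ_pos _) hq).symm
  have h3 := Dioph.diophFn_comp2 df (Dioph.sub_dioph dg (Dioph.const_dioph 1))
    (h := fun n t => prodAP n (t + 1)) key
  have h4 : (fun v => prodAP (f v) (g v)) = fun v => prodAP (f v) (g v - 1 + 1) := by
    funext v
    rw [Nat.sub_add_cancel (hg v)]
  rw [h4]
  exact h3

/-- finite conjunctions -/
theorem forall_fintype {β : Type} [Fintype β] {S : β → Set (α → ℕ)} (hS : ∀ b, Dioph (S b)) :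
    Dioph {v | ∀ b, v ∈ S b} := by
  classical
  have := Dioph.DiophList.forall ((Finset.univ : Finset β).toList.map S) (by
    rw [List.forall_iff_forall_mem]
    intro x hx
    rw [List.mem_map] at hx
    obtain ⟨b, _, rfl⟩ := hx
    exact hS b)
  refine Dioph.ext this ?_
  intro v
  simp only [Set.mem_ofPred_eq, List.forall_iff_forall_mem, List.mem_map, Finset.mem_toList,
    Finset.mem_univ, true_and]
  constructor
  · intro h b
    exact h _ ⟨b, rfl⟩
  · rintro h _ ⟨b, rfl⟩
    exact h b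

end

/-- an integer polynomial function depends on finitely many variables -/
theorem poly_support {γ : Type} (p : Poly γ) :
    ∃ s : Finset γ, ∀ x y : γ → ℕ, (∀ i ∈ s, x i = y i) → p x = p y := by
  classical
  refine Poly.induction (C := fun p => ∃ s : Finset γ, ∀ x y : γ → ℕ,
    (∀ i ∈ s, x i = y i) → p x = p y) ?_ ?_ ?_ ?_ p
  · intro i
    refine ⟨{i}, fun x y h => ?_⟩
    simp only [Poly.proj_apply]
    rw [h i (by simp)]
  · intro n
    exact ⟨∅, fun x y _ => rfl⟩
  · rintro f g ⟨s, hs⟩ ⟨t, ht⟩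
    refine ⟨s ∪ t, fun x y h => ?_⟩
    simp only [Poly.sub_apply]
    rw [hs x y (fun i hi => h i (by simp [hi])), ht x y (fun i hi => h i (by simp [hi]))]
  · rintro f g ⟨s, hs⟩ ⟨t, ht⟩
    refine ⟨s ∪ t, fun x y h => ?_⟩
    simp only [Poly.mul_apply]
    rw [hs x y (fun i hi => h i (by simp [hi])), ht x y (fun i hi => h i (by simp [hi]))]

/-- a polynomial with nonnegative coefficients bounding `|p|` -/
theorem poly_majorant {γ : Type} (p : Poly γ) :
    ∃ Q : Poly γ, ∀ x y : γ → ℕ, (∀ i, x i ≤ y i) → |p x| ≤ Q y ∧ 0 ≤ Q y := by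
  refine Poly.induction (C := fun p => ∃ Q : Poly γ, ∀ x y : γ → ℕ,
    (∀ i, x i ≤ y i) → |p x| ≤ Q y ∧ 0 ≤ Q y) ?_ ?_ ?_ ?_ p
  · intro i
    refine ⟨Poly.proj i, fun x y h => ?_⟩
    simp only [Poly.proj_apply, Nat.abs_cast]
    exact ⟨by exact_mod_cast h i, by positivity⟩
  · intro n
    exact ⟨Poly.const |n|, fun x y _ => ⟨by simp, by simp⟩⟩
  · rintro f g ⟨s, hs⟩ ⟨t, ht⟩
    refine ⟨s + t, fun x y h => ?_⟩
    simp only [Poly.sub_apply, Poly.add_apply]
    have h1 := hs x y h
    have h2 := ht x y h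
    refine ⟨(abs_sub _ _).trans (add_le_add h1.1 h2.1), add_nonneg h1.2 h2.2⟩
  · rintro f g ⟨s, hs⟩ ⟨t, ht⟩
    refine ⟨s * t, fun x y h => ?_⟩
    simp only [Poly.mul_apply]
    have h1 := hs x y h
    have h2 := ht x y h
    refine ⟨?_, mul_nonneg h1.2 h2.2⟩
    rw [abs_mul]
    exact mul_le_mul h1.1 h2.1 (abs_nonneg _) h1.2

/-- congruence for polynomial functions -/
theorem poly_modEq {γ : Type} (p : Poly γ) (N : ℤ) (x y : γ → ℕ)
    (h : ∀ i, (x i : ℤ) ≡ y i [ZMOD N]) : p x ≡ p y [ZMOD N] := by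
  refine Poly.induction (C := fun p => p x ≡ p y [ZMOD N]) ?_ ?_ ?_ ?_ p
  · intro i
    simp only [Poly.proj_apply]
    exact h i
  · intro n
    simp only [Poly.const_apply]
    exact Int.ModEq.refl _
  · intro f g hf hg
    simp only [Poly.sub_apply]
    exact hf.sub hg
  · intro f g hf hg
    simp only [Poly.mul_apply]
    exact hf.mul hg

/-- every Diophantine set is defined with finitely many existential variables -/
theorem dioph_fintype {α : Type} {S : Set (α → ℕ)} (hS : Dioph S) :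
    ∃ (β : Type) (_ : Fintype β) (p : Poly (α ⊕ β)), ∀ v, v ∈ S ↔ ∃ t, p (Sum.elim v t) = 0 := by
  classical
  obtain ⟨β, p, hp⟩ := hS
  obtain ⟨s, hs⟩ := poly_support p
  -- the variables of `β` in `s`
  let T : Finset β := s.preimage Sum.inr (Sum.inr_injective.injOn)
  let F : β → Option T := fun b => if h : b ∈ T then some ⟨b, h⟩ else none
  refine ⟨Option T, inferInstance, p.map (Sum.elim Sum.inl (Sum.inr ∘ F)), fun v => ?_⟩
  rw [hp]
  constructor
  · rintro ⟨t, ht⟩
    refine ⟨fun o => o.elim 0 (fun b => t b.1), ?_⟩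
    rw [Poly.map_apply, ← ht]
    apply hs
    rintro (a | b) hi
    · rfl
    · have hb : b ∈ T := by
        rw [Finset.mem_preimage]; exact hi
      simp [F, hb]
  · rintro ⟨t, ht⟩
    refine ⟨t ∘ F, ?_⟩
    rw [Poly.map_apply] at ht
    rw [← ht]
    congr 1
    funext i
    rcases i with a | b <;> rfl

end Pool.Agent.MRDP
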