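import Pool.Agent.Common_MRDP.Basic

/-!
Diophantine sets are closed under bounded universal quantification (Davis, Putnam, Robinson;
Davis 1973).
-/

namespace Pool.Agent.MRDP

open Finset Nat Dioph

/-- `1 + (k+1) t` for `k < n`, `t = Q!`, `n ≤ Q`, are pairwise coprime -/
theorem coprime_AP (Q k l : ℕ) (hk : k < Q) (hl : l < Q) (hkl : k ≠ l) :
    Nat.Coprime (1 + (k + 1) * Q !) (1 + (l + 1) * Q !) := by
  rw [Nat.coprime_iff_gcd_eq_one]
  by_contra hne
  obtain ⟨p, hp, hpd⟩ := Nat.exists_prime_and_dvd hne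
  have h1 : p ∣ 1 + (k + 1) * Q ! := hpd.trans (Nat.gcd_dvd_left _ _)
  have h2 : p ∣ 1 + (l + 1) * Q ! := hpd.trans (Nat.gcd_dvd_right _ _)
  have hpQ : ¬ p ∣ Q ! := by
    intro h
    have h3 : p ∣ (k + 1) * Q ! := h.mul_left _
    have h4 : p ∣ 1 := (Nat.dvd_add_iff_left h3).2 h1
    exact hp.one_lt.ne' (Nat.dvd_one.1 h4)
  have hbig : Q < p := by
    by_contra h
    exact hpQ (Nat.dvd_factorial hp.pos (by omega))
  -- p divides |k-l| * Q!
  have h3 : (p : ℤ) ∣ ((k : ℤ) - l) * (Q ! : ℤ) := by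
    have e1 : (p : ℤ) ∣ ((1 + (k + 1) * Q ! : ℕ) : ℤ) := by exact_mod_cast h1
    have e2 : (p : ℤ) ∣ ((1 + (l + 1) * Q ! : ℕ) : ℤ) := by exact_mod_cast h2
    have e3 := dvd_sub e1 e2
    have e4 : ((1 + (k + 1) * Q ! : ℕ) : ℤ) - ((1 + (l + 1) * Q ! : ℕ) : ℤ) =
        ((k : ℤ) - l) * (Q ! : ℤ) := by push_cast; ring
    rwa [e4] at e3
  have hpp : Prime (p : ℤ) := Nat.prime_iff_prime_int.1 hp
  rcases hpp.dvd_or_dvd h3 with h4 | h4
  · have h5 := Int.le_of_dvd (a := (p : ℤ)) (b := |(k : ℤ) - l|)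
      (by rw [abs_pos]; intro h; apply hkl; omega) ((dvd_abs _ _).2 h4)
    have h6 : |(k : ℤ) - l| < Q := by rw [abs_lt]; constructor <;> omega
    omega
  · exact hpQ (by exact_mod_cast h4)

/-- the number theoretic heart of the elimination of bounded quantifiers -/
theorem bounded_iff {β : Type} [Fintype β] (n u Q : ℕ) (F : ℕ → (β → ℕ) → ℤ)
    (hF : ∀ (N : ℤ) (k l : ℕ) (x y : β → ℕ), (k : ℤ) ≡ l [ZMOD N] →
      (∀ i, (x i : ℤ) ≡ y i [ZMOD N]) → F k x ≡ F l y [ZMOD N])
    (hQn : n ≤ Q) (hQu : u < Q) (hQF : ∀ k < n, ∀ x : β → ℕ, (∀ i, x i ≤ u) → |F k x| ≤ Q) :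
    (∀ k < n, ∃ x : β → ℕ, (∀ i, x i ≤ u) ∧ F k x = 0) ↔
      ∃ (c : ℕ) (a : β → ℕ), prodAP n (Q !) ∣ 1 + (c + 1) * Q ! ∧
        (∀ i, prodAP n (Q !) ∣ (a i).descFactorial (u + 1)) ∧
        prodAP n (Q !) ∣ (F c a).natAbs := by
  classical
  set t := Q ! with ht
  have htpos : 0 < t := Nat.factorial_pos _
  have hcop : Set.Pairwise (↑(range n) : Set ℕ)
      (Function.onFun Nat.Coprime (fun k => 1 + (k + 1) * t)) := by
    intro k hk l hl hkl
    simp only [Finset.coe_range, Set.mem_Iio] at hk hl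
    exact coprime_AP Q k l (by omega) (by omega) hkl
  constructor
  · intro h
    choose! x hx using h
    -- existence of c
    have hc : ∃ c, prodAP n t ∣ 1 + (c + 1) * t := by
      rcases Nat.eq_zero_or_pos n with hn | hn
      · subst hn
        exact ⟨0, by simp [prodAP]⟩
      · have h1 : prodAP n t ≡ 1 [MOD t] := by
          rw [prodAP]
          have : (∏ k ∈ range n, (1 + (k + 1) * t)) ≡ ∏ _k ∈ range n, 1 [MOD t] := by
            apply Nat.ModEq.prod
            intro k _
            simp [Nat.ModEq]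
          simpa using this
        have h2 : 1 < prodAP n t := by
          rw [prodAP]
          have h3 : (1 + (0 + 1) * t) ∣ ∏ k ∈ range n, (1 + (k + 1) * t) :=
            Finset.dvd_prod_of_mem (fun k => 1 + (k + 1) * t) (Finset.mem_range.2 hn)
          have h4 := Nat.le_of_dvd (Finset.prod_pos (fun k _ => by positivity)) h3
          omega
        obtain ⟨c, hc⟩ := (Nat.modEq_iff_dvd' h2.le).1 h1.symm
        have hcpos : 0 < c := by
          rcases Nat.eq_zero_or_pos c with h5 | h5
          · subst h5; omega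
          · exact h5
        refine ⟨c - 1, ?_⟩
        have : 1 + (c - 1 + 1) * t = prodAP n t := by
          rw [Nat.sub_add_cancel hcpos, Nat.mul_comm]
          omega
        rw [this]
    obtain ⟨c, hc⟩ := hc
    -- the CRT
    have hcrt : ∀ i : β, ∃ a : ℕ, ∀ k ∈ range n, a ≡ x k i [MOD (1 + (k + 1) * t)] := by
      intro i
      have := Nat.chineseRemainderOfFinset (fun k => x k i) (fun k => 1 + (k + 1) * t) (range n)
        (fun k _ => by positivity) hcop
      exact ⟨this.1, this.2⟩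
    choose a ha using hcrt
    have hmod : ∀ k ∈ range n, (1 + (k + 1) * t) ∣ 1 + (c + 1) * t := by
      intro k hk
      exact (Finset.dvd_prod_of_mem (fun k => 1 + (k + 1) * t) hk).trans hc
    have hck : ∀ k ∈ range n, (c : ℤ) ≡ k [ZMOD ((1 + (k + 1) * t : ℕ) : ℤ)] := by
      intro k hk
      have h1 : (((1 + (k + 1) * t : ℕ)) : ℤ) ∣ ((c : ℤ) - k) * (t : ℤ) := by
        have e1 : (((1 + (k + 1) * t : ℕ)) : ℤ) ∣ ((1 + (c + 1) * t : ℕ) : ℤ) := by
          exact_mod_cast hmod k hk
        have e3 := dvd_sub e1 (dvd_refl (((1 + (k + 1) * t : ℕ)) : ℤ))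
        have e4 : ((1 + (c + 1) * t : ℕ) : ℤ) - ((1 + (k + 1) * t : ℕ) : ℤ) =
          ((c : ℤ) - k) * (t : ℤ) := by push_cast; ring
        rwa [e4] at e3
      have h2 : IsCoprime (((1 + (k + 1) * t : ℕ)) : ℤ) (t : ℤ) := by
        refine ⟨1, -(k + 1), ?_⟩
        push_cast
        ring
      have h3 := h2.dvd_of_dvd_mul_right h1
      exact (Int.modEq_iff_dvd.2 h3).symm
    refine ⟨c, a, hc, ?_, ?_⟩
    · intro i
      rw [prodAP]
      apply Finset.prod_dvd_of_isRelPrime
      · intro k hk l hl hkl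
        exact Nat.coprime_iff_isRelPrime.1 (hcop hk hl hkl)
      · intro k hk
        have h1 := (hx k (Finset.mem_range.1 hk)).1 i
        have h2 := ha i k hk
        rcases lt_or_ge (a i) (x k i) with h3 | h3
        · rw [Nat.descFactorial_eq_zero_iff_lt.2 (by omega)]
          exact dvd_zero _
        · have h4 : (1 + (k + 1) * t) ∣ a i - x k i := (Nat.modEq_iff_dvd' h3).1 h2.symm
          rw [Nat.descFactorial_eq_prod_range]
          exact h4.trans (Finset.dvd_prod_of_mem (fun j => a i - j) (Finset.mem_range.2 (by omega)))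
    · rw [prodAP]
      apply Finset.prod_dvd_of_isRelPrime
      · intro k hk l hl hkl
        exact Nat.coprime_iff_isRelPrime.1 (hcop hk hl hkl)
      · intro k hk
        have h1 : F c a ≡ F k (x k) [ZMOD ((1 + (k + 1) * t : ℕ) : ℤ)] := by
          apply hF _ _ _ _ _ (hck k hk)
          intro i
          exact (Int.natCast_modEq_iff).2 (ha i k hk)
        rw [(hx k (Finset.mem_range.1 hk)).2] at h1
        have h2 : (((1 + (k + 1) * t : ℕ)) : ℤ) ∣ F c a := Int.modEq_zero_iff_dvd.1 h1
        exact Int.natCast_dvd.1 h2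
  · rintro ⟨c, a, hc, ha, hFa⟩ k hk
    have hdvd : (1 + (k + 1) * t) ∣ prodAP n t :=
      Finset.dvd_prod_of_mem (fun k => 1 + (k + 1) * t) (Finset.mem_range.2 hk)
    obtain ⟨p, hp, hpd⟩ := Nat.exists_prime_and_dvd (n := 1 + (k + 1) * t) (by
      have : 0 < (k + 1) * t := by positivity
      omega)
    have hpt : ¬ p ∣ t := by
      intro h
      have h3 : p ∣ (k + 1) * t := h.mul_left _
      have h4 : p ∣ 1 := (Nat.dvd_add_iff_left h3).2 hpd
      exact hp.one_lt.ne' (Nat.dvd_one.1 h4)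
    have hbig : Q < p := by
      by_contra h
      exact hpt (Nat.dvd_factorial hp.pos (by omega))
    have hpM := hpd.trans hdvd
    refine ⟨fun i => a i % p, ?_, ?_⟩
    · intro i
      have h1 : p ∣ (a i).descFactorial (u + 1) := hpM.trans (ha i)
      rw [Nat.descFactorial_eq_prod_range, hp.prime.dvd_finsetProd_iff] at h1
      obtain ⟨j, hj, hjd⟩ := h1
      rw [Finset.mem_range] at hj
      rcases le_or_gt j (a i) with h2 | h2
      · have h3 : j ≡ a i [MOD p] := (Nat.modEq_iff_dvd' h2).2 hjd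
        have h4 : a i % p = j % p := h3.symm
        change a i % p ≤ u
        rw [h4, Nat.mod_eq_of_lt (by omega)]
        omega
      · exact (Nat.mod_le _ _).trans (by omega)
    · have h1 : F k (fun i => a i % p) ≡ F c a [ZMOD (p : ℤ)] := by
        apply hF
        · -- c ≡ k mod p
          have e1 : (p : ℤ) ∣ ((1 + (c + 1) * t : ℕ) : ℤ) := by
            exact_mod_cast hpM.trans hc
          have e2 : (p : ℤ) ∣ ((1 + (k + 1) * t : ℕ) : ℤ) := by
            exact_mod_cast hpd
          have e3 := dvd_sub e1 e2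
          have e4 : ((1 + (c + 1) * t : ℕ) : ℤ) - ((1 + (k + 1) * t : ℕ) : ℤ) =
            ((c : ℤ) - k) * (t : ℤ) := by push_cast; ring
          rw [e4] at e3
          have hpp : Prime (p : ℤ) := Nat.prime_iff_prime_int.1 hp
          rcases hpp.dvd_or_dvd e3 with h4 | h4
          · exact Int.modEq_iff_dvd.2 h4
          · exact absurd (by exact_mod_cast h4) hpt
        · intro i
          push_cast
          exact Int.mod_modEq _ _
      have h2 : (p : ℤ) ∣ F c a := by
        rw [← Int.dvd_natAbs]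
        exact_mod_cast hpM.trans hFa
      have h3 : (p : ℤ) ∣ F k (fun i => a i % p) := by
        rw [← Int.modEq_zero_iff_dvd] at h2 ⊢
        exact h1.trans h2
      apply Int.eq_zero_of_abs_lt_dvd h3
      have h4 : |F k (fun i => a i % p)| ≤ Q := by
        apply hQF k hk
        intro i
        have h1 : p ∣ (a i).descFactorial (u + 1) := hpM.trans (ha i)
        rw [Nat.descFactorial_eq_prod_range, hp.prime.dvd_finsetProd_iff] at h1
        obtain ⟨j, hj, hjd⟩ := h1
        rw [Finset.mem_range] at hj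
        rcases le_or_gt j (a i) with h2 | h2
        · have h3 : j ≡ a i [MOD p] := (Nat.modEq_iff_dvd' h2).2 hjd
          have h4 : a i % p = j % p := h3.symm
          change a i % p ≤ u
          rw [h4, Nat.mod_eq_of_lt (by omega)]
          omega
        · exact (Nat.mod_le _ _).trans (by omega)
      omega

end Pool.Agent.MRDP
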