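import Pool.Agent.Common_MRDP.Bounded

/-!
Closure of Diophantine sets under bounded universal quantification, stated for `Dioph`.
-/

namespace Pool.Agent.MRDP

open Finset Nat Dioph

/-- bounded universal quantification, the bound being a variable -/
theorem forall_lt_var_dioph {α : Type} (i : α) {S : Set (Option α → ℕ)} (hS : Dioph S) :
    Dioph {v : α → ℕ | ∀ k < v i, (Option.elim' k v) ∈ S} := by
  classical
  obtain ⟨β, hβ, p, hp⟩ := dioph_fintype hS
  obtain ⟨R, hR⟩ := poly_majorant p
  -- the polynomial with integer values as a function of k and x, for fixed v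
  let F : (α → ℕ) → ℕ → (β → ℕ) → ℤ := fun v k x => p (Sum.elim (Option.elim' k v) x)
  -- new variables : u = none, c = some none, a b = some (some b)
  let γ := Option (Option β)
  -- the bound Q as a function of all variables
  let Rm : Poly (α ⊕ γ) := R.map (Sum.elim (Option.elim' (Sum.inl i) Sum.inl)
    (fun _ => Sum.inr none))
  let Q : (α ⊕ γ → ℕ) → ℕ := fun w => (Rm w).natAbs + w (Sum.inl i) + w (Sum.inr none) + 1
  have hQd : DiophFn Q :=
    Dioph.add_dioph (Dioph.add_dioph (Dioph.add_dioph (Dioph.abs_poly_dioph Rm)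
      (Dioph.proj_dioph _)) (Dioph.proj_dioph _)) (Dioph.const_dioph 1)
  have hMd : DiophFn fun w : α ⊕ γ → ℕ => prodAP (w (Sum.inl i)) (Q w)! :=
    prodAP_dioph (Dioph.proj_dioph _) (factorial_dioph hQd) (fun v => Nat.factorial_pos _)
  have hcd : DiophFn fun w : α ⊕ γ → ℕ => 1 + (w (Sum.inr (some none)) + 1) * (Q w)! :=
    Dioph.add_dioph (Dioph.const_dioph 1) (Dioph.mul_dioph
      (Dioph.add_dioph (Dioph.proj_dioph _) (Dioph.const_dioph 1)) (factorial_dioph hQd))
  have hFd : DiophFn fun w : α ⊕ γ → ℕ =>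
      ((p.map (Sum.elim (Option.elim' (Sum.inr (some none)) Sum.inl)
        (fun b => Sum.inr (some (some b)))) : Poly (α ⊕ γ)) w).natAbs :=
    Dioph.abs_poly_dioph _
  have hall : Dioph {w : α ⊕ γ → ℕ | ∀ b : β, prodAP (w (Sum.inl i)) (Q w)! ∣
      (w (Sum.inr (some (some b)))).descFactorial (w (Sum.inr none) + 1)} := by
    apply forall_fintype (S := fun b => {w : α ⊕ γ → ℕ | prodAP (w (Sum.inl i)) (Q w)! ∣
      (w (Sum.inr (some (some b)))).descFactorial (w (Sum.inr none) + 1)})
    intro b
    exact Dioph.dvd_dioph hMd (descFactorial_dioph (Dioph.proj_dioph _)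
      (Dioph.add_dioph (Dioph.proj_dioph _) (Dioph.const_dioph 1)))
  have hfin := Dioph.ex_dioph ((Dioph.dvd_dioph hMd hcd).inter (hall.inter
    (Dioph.dvd_dioph hMd hFd)))
  refine Dioph.ext hfin ?_
  intro v
  -- reformulate membership
  have key : ∀ u : ℕ,
      (∀ k < v i, ∃ x : β → ℕ, (∀ b, x b ≤ u) ∧ F v k x = 0) ↔
      ∃ (c : ℕ) (a : β → ℕ),
        prodAP (v i) ((R (Sum.elim (Option.elim' (v i) v) (fun _ => u))).natAbs + v i + u + 1)! ∣
          1 + (c + 1) * ((R (Sum.elim (Option.elim' (v i) v) (fun _ => u))).natAbs + v i + u + 1)! ∧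
        (∀ b, prodAP (v i) ((R (Sum.elim (Option.elim' (v i) v) (fun _ => u))).natAbs + v i + u + 1)! ∣
          (a b).descFactorial (u + 1)) ∧
        prodAP (v i) ((R (Sum.elim (Option.elim' (v i) v) (fun _ => u))).natAbs + v i + u + 1)! ∣
          (F v c a).natAbs := by
    intro u
    apply bounded_iff (v i) u _ (F v)
    · intro N k l x y hkl hxy
      apply poly_modEq
      rintro ((_ | a) | b)
      · exact hkl
      · exact Int.ModEq.refl _
      · exact hxy b
    · omega
    · omega
    · intro k hk x hx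
      have h1 := hR (Sum.elim (Option.elim' k v) x) (Sum.elim (Option.elim' (v i) v) (fun _ => u)) (by
        rintro ((_ | a) | b)
        · exact hk.le
        · exact le_refl _
        · exact hx b)
      refine h1.1.trans ?_
      push_cast
      rw [abs_of_nonneg h1.2]
      linarith [Int.natCast_nonneg (v i), Int.natCast_nonneg u]
  change (∃ x : γ → ℕ, _) ↔ ∀ k < v i, (Option.elim' k v) ∈ S
  have hQv : ∀ x : γ → ℕ, Q (Sum.elim v x) =
      (R (Sum.elim (Option.elim' (v i) v) (fun _ => x none))).natAbs + v i + x none + 1 := by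
    intro x
    have : (Sum.elim v x ∘ Sum.elim (Option.elim' (Sum.inl i) Sum.inl) (fun _ => Sum.inr none)) =
        (Sum.elim (Option.elim' (v i) v) (fun _ => x none) : Option α ⊕ β → ℕ) := by
      funext j
      rcases j with (_ | a) | b <;> rfl
    change (R (Sum.elim v x ∘ Sum.elim (Option.elim' (Sum.inl i) Sum.inl)
      (fun _ => Sum.inr none))).natAbs + v i + x none + 1 = _
    rw [this]
  have hFv : ∀ x : γ → ℕ, (p.map (Sum.elim (Option.elim' (Sum.inr (some none)) Sum.inl)
        (fun b => Sum.inr (some (some b)))) : Poly (α ⊕ γ)) (Sum.elim v x) =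
      F v (x (some none)) (fun b => x (some (some b))) := by
    intro x
    have : (Sum.elim v x ∘ Sum.elim (Option.elim' (Sum.inr (some none)) Sum.inl)
        (fun b => Sum.inr (some (some b)))) =
        (Sum.elim (Option.elim' (x (some none)) v) (fun b => x (some (some b))) : Option α ⊕ β → ℕ) := by
      funext j
      rcases j with (_ | a) | b <;> rfl
    rw [Poly.map_apply, this]
  constructor
  · rintro ⟨x, h1, h2, h3⟩ k hk
    have h1' : prodAP (v i) (Q (Sum.elim v x))! ∣ 1 + (x (some none) + 1) * (Q (Sum.elim v x))! :=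
      h1
    have h2' : ∀ b : β, prodAP (v i) (Q (Sum.elim v x))! ∣
      (x (some (some b))).descFactorial (x none + 1) := h2
    have h3' : prodAP (v i) (Q (Sum.elim v x))! ∣ ((p.map (Sum.elim (Option.elim'
      (Sum.inr (some none)) Sum.inl) (fun b => Sum.inr (some (some b)))) : Poly (α ⊕ γ))
        (Sum.elim v x)).natAbs := h3
    rw [hFv] at h3'
    rw [hQv] at h1' h2' h3'
    obtain ⟨y, _, hy⟩ := (key (x none)).2 ⟨x (some none), fun b => x (some (some b)), h1', h2', h3'⟩
      k hk
    exact (hp _).2 ⟨y, hy⟩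
  · intro h
    have h1 : ∀ k, ∃ y : β → ℕ, k < v i → F v k y = 0 := by
      intro k
      by_cases hk : k < v i
      · obtain ⟨y, hy⟩ := (hp _).1 (h k hk)
        exact ⟨y, fun _ => hy⟩
      · exact ⟨fun _ => 0, fun h => absurd h hk⟩
    choose y hy using h1
    let u := ∑ k ∈ range (v i), ∑ b, y k b
    have hu : ∀ k < v i, ∀ b, y k b ≤ u := by
      intro k hk b
      calc y k b ≤ ∑ b, y k b := Finset.single_le_sum (f := fun b => y k b)
            (fun _ _ => Nat.zero_le _) (Finset.mem_univ b)
        _ ≤ u := Finset.single_le_sum (f := fun k => ∑ b, y k b)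
            (fun _ _ => Nat.zero_le _) (Finset.mem_range.2 hk)
    obtain ⟨c, a, h1, h2, h3⟩ := (key u).1 (fun k hk => ⟨y k, hu k hk, hy k hk⟩)
    let x : γ → ℕ := Option.elim' u (Option.elim' c a)
    refine ⟨x, ?_, ?_, ?_⟩
    · change prodAP (v i) (Q (Sum.elim v x))! ∣ 1 + (x (some none) + 1) * (Q (Sum.elim v x))!
      rw [hQv]
      exact h1
    · change ∀ b : β, prodAP (v i) (Q (Sum.elim v x))! ∣
        (x (some (some b))).descFactorial (x none + 1)
      rw [hQv]
      exact h2
    · change prodAP (v i) (Q (Sum.elim v x))! ∣ ((p.map (Sum.elim (Option.elim'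
        (Sum.inr (some none)) Sum.inl) (fun b => Sum.inr (some (some b)))) : Poly (α ⊕ γ))
          (Sum.elim v x)).natAbs
      rw [hFv, hQv]
      exact h3

/-- bounded universal quantification -/
theorem forall_lt_dioph {α : Type} {g : (α → ℕ) → ℕ} (hg : DiophFn g) {S : Set (Option α → ℕ)}
    (hS : Dioph S) : Dioph {v : α → ℕ | ∀ k < g v, (Option.elim' k v) ∈ S} := by
  have h1 : Dioph {w : Option α → ℕ | ∀ k < w none, (Option.elim' k w) ∈
      {z : Option (Option α) → ℕ | (z ∘ Option.map some) ∈ S}} :=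
    forall_lt_var_dioph none (Dioph.reindex_dioph _ (Option.map some) hS)
  have h2 := Dioph.diophFn_comp1 h1 hg
  refine Dioph.ext h2 ?_
  intro v
  change (∀ k < g v, ((Option.elim' k (Option.elim' (g v) v)) ∘ Option.map some) ∈ S) ↔ ∀ k < g v, (Option.elim' k v) ∈ S
  have : ∀ k, ((Option.elim' k (Option.elim' (g v) v)) ∘ Option.map some) = (Option.elim' k v) := by
    intro k
    funext j
    rcases j with _ | a <;> rfl
  simp only [this]

end Pool.Agent.MRDP
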