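import Pool.Agent.Common_MRDP.Partrec

set_option backward.isDefEq.respectTransparency false

/-!
# The MRDP theorem (Davis, Putnam, Robinson, Matiyasevich)

* `dioph_of_rePred` (previous file): recursively enumerable sets of naturals are Diophantine;
* `exists_mvPolynomial_nat`: with solutions in natural numbers, as an `MvPolynomial`;
* `exists_mvPolynomial_int`: with solutions in integers;
* `exists_noncomputable_dioph`: Hilbert's tenth problem is undecidable, in the form of one
  polynomial with a parameter.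
-/

namespace Pool.Agent.MRDP

open Finset Nat Dioph

/-- a polynomial function is given by a polynomial -/
theorem exists_mvPolynomial {γ : Type} (p : Poly γ) :
    ∃ P : MvPolynomial γ ℤ, ∀ x : γ → ℕ, MvPolynomial.eval (fun i => (x i : ℤ)) P = p x := by
  refine Poly.induction (C := fun p => ∃ P : MvPolynomial γ ℤ, ∀ x : γ → ℕ,
    MvPolynomial.eval (fun i => (x i : ℤ)) P = p x) ?_ ?_ ?_ ?_ p
  · intro i
    exact ⟨MvPolynomial.X i, fun x => by simp⟩
  · intro n
    exact ⟨MvPolynomial.C n, fun x => by simp⟩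
  · rintro f g ⟨F, hF⟩ ⟨G, hG⟩
    exact ⟨F - G, fun x => by simp [hF, hG]⟩
  · rintro f g ⟨F, hF⟩ ⟨G, hG⟩
    exact ⟨F * G, fun x => by simp [hF, hG]⟩

/-- MRDP, solutions in natural numbers -/
theorem exists_mvPolynomial_nat {p : ℕ → Prop} (hp : REPred p) :
    ∃ (k : ℕ) (P : MvPolynomial (Fin (k + 1)) ℤ), ∀ a : ℕ,
      p a ↔ ∃ x : Fin k → ℕ,
        MvPolynomial.eval (fun i => ((Fin.cons a x : Fin (k + 1) → ℕ) i : ℤ)) P = 0 := by
  classical
  obtain ⟨β, hβ, q, hq⟩ := dioph_fintype (dioph_of_rePred hp)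
  obtain ⟨Q, hQ⟩ := exists_mvPolynomial q
  let e := Fintype.equivFin β
  refine ⟨Fintype.card β, MvPolynomial.rename (Sum.elim (fun _ => 0) (fun b => (e b).succ)) Q,
    fun a => ?_⟩
  have h1 := hq (fun _ => a)
  have h1' : p a ↔ ∃ t, q (Sum.elim (fun _ => a) t) = 0 := h1
  rw [h1']
  constructor
  · rintro ⟨t, ht⟩
    refine ⟨fun i => t (e.symm i), ?_⟩
    rw [MvPolynomial.eval_rename, ← ht, ← hQ]
    congr 1
    congr 1
    funext i
    rcases i with a | b
    · rfl
    · simp
  · rintro ⟨x, hx⟩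
    refine ⟨fun b => x (e b), ?_⟩
    rw [MvPolynomial.eval_rename] at hx
    rw [← hx, ← hQ]
    congr 1
    congr 1
    funext i
    rcases i with a | b
    · rfl
    · simp

/-- MRDP, solutions in integers -/
theorem exists_mvPolynomial_int {p : ℕ → Prop} (hp : REPred p) :
    ∃ (k : ℕ) (P : MvPolynomial (Fin (k + 1)) ℤ), ∀ a : ℕ,
      p a ↔ ∃ x : Fin k → ℤ,
        MvPolynomial.eval (Fin.cons (a : ℤ) x : Fin (k + 1) → ℤ) P = 0 := by
  classical
  obtain ⟨k, P, hP⟩ := exists_mvPolynomial_nat hp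
  -- each natural variable is a sum of four squares
  let e : (Fin k × Fin 4) ≃ Fin (k * 4) := finProdFinEquiv
  let S : Fin (k + 1) → MvPolynomial (Fin (k * 4 + 1)) ℤ :=
    Fin.cons (MvPolynomial.X 0) (fun i => ∑ j : Fin 4, MvPolynomial.X (e (i, j)).succ ^ 2)
  refine ⟨k * 4, MvPolynomial.bind₁ S P, fun a => ?_⟩
  rw [hP]
  have key : ∀ z : Fin (k * 4) → ℤ,
      MvPolynomial.eval (Fin.cons (a : ℤ) z : Fin (k * 4 + 1) → ℤ) (MvPolynomial.bind₁ S P) =
      MvPolynomial.eval (Fin.cons (a : ℤ) (fun i => ∑ j : Fin 4, z (e (i, j)) ^ 2) :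
        Fin (k + 1) → ℤ) P := by
    intro z
    have h1 : MvPolynomial.eval (Fin.cons (a : ℤ) z : Fin (k * 4 + 1) → ℤ)
        (MvPolynomial.bind₁ S P) = MvPolynomial.eval
          (fun i => MvPolynomial.eval (Fin.cons (a : ℤ) z : Fin (k * 4 + 1) → ℤ) (S i)) P := by
      rw [MvPolynomial.eval, MvPolynomial.eval₂Hom_bind₁]
      rfl
    rw [h1]
    congr 1
    congr 1
    funext i
    refine Fin.cases ?_ (fun i => ?_) i
    · simp [S]
    · simp [S]
  constructor
  · rintro ⟨x, hx⟩
    have hsq : ∀ i : Fin k, ∃ z : Fin 4 → ℤ, ∑ j, z j ^ 2 = x i := by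
      intro i
      obtain ⟨a, b, c, d, h⟩ := Nat.sum_four_squares (x i)
      refine ⟨![a, b, c, d], ?_⟩
      rw [← h]
      simp [Fin.sum_univ_four]
    choose z hz using hsq
    refine ⟨fun m => z (e.symm m).1 (e.symm m).2, ?_⟩
    rw [key]
    have hfun : (Fin.cons (a : ℤ) (fun i => ∑ j : Fin 4, z (e.symm (e (i, j))).1
        (e.symm (e (i, j))).2 ^ 2) : Fin (k + 1) → ℤ) =
        fun i => ((Fin.cons a x : Fin (k + 1) → ℕ) i : ℤ) := by
      funext i
      refine Fin.cases ?_ (fun i => ?_) i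
      · simp
      · simp [hz]
    rw [hfun]
    exact hx
  · rintro ⟨z, hz⟩
    rw [key] at hz
    refine ⟨fun i => (∑ j : Fin 4, z (e (i, j)) ^ 2).natAbs, ?_⟩
    have hfun : (fun i => ((Fin.cons a (fun i => (∑ j : Fin 4, z (e (i, j)) ^ 2).natAbs) :
        Fin (k + 1) → ℕ) i : ℤ)) =
        (Fin.cons (a : ℤ) (fun i => ∑ j : Fin 4, z (e (i, j)) ^ 2) : Fin (k + 1) → ℤ) := by
      funext i
      refine Fin.cases ?_ (fun i => ?_) i
      · simp
      · simp only [Fin.cons_succ, Int.natCast_natAbs]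
        exact abs_of_nonneg (Finset.sum_nonneg fun _ _ => sq_nonneg _)
    rw [hfun]
    exact hz

/-- a recursively enumerable, noncomputable set of naturals -/
theorem exists_re_not_computable : ∃ p : ℕ → Prop, REPred p ∧ ¬ ComputablePred p := by
  let dec : ℕ → Nat.Partrec.Code := fun n => Denumerable.ofNat Nat.Partrec.Code n
  refine ⟨fun n => (Nat.Partrec.Code.eval (dec n) 0).Dom, ?_, ?_⟩
  · exact (Nat.Partrec.Code.eval_part.comp (Computable.ofNat _) (Computable.const 0)).dom_re
  · intro h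
    apply ComputablePred.halting_problem 0
    have h1 : ComputablePred fun c : Nat.Partrec.Code =>
        (Nat.Partrec.Code.eval (dec (Encodable.encode c)) 0).Dom := by
      obtain ⟨f, hf, hfe⟩ := ComputablePred.computable_iff.1 h
      refine ComputablePred.computable_iff.2 ⟨fun c => f (Encodable.encode c),
        hf.comp Computable.encode, ?_⟩
      funext c
      exact congrFun hfe (Encodable.encode c)
    simpa [dec] using h1

/-- **Hilbert's tenth problem is undecidable** (Matiyasevich, Robinson, Davis, Putnam): there is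
an integer polynomial `P` such that it is undecidable, given `a : ℕ`, whether
`P (a, x₁, ..., x_k) = 0` has a solution in integers. -/
theorem exists_noncomputable_dioph : ∃ (k : ℕ) (P : MvPolynomial (Fin (k + 1)) ℤ),
    ¬ ComputablePred (fun a : ℕ => ∃ x : Fin k → ℤ,
      MvPolynomial.eval (Fin.cons (a : ℤ) x : Fin (k + 1) → ℤ) P = 0) := by
  obtain ⟨p, hp, hnc⟩ := exists_re_not_computable
  obtain ⟨k, P, hP⟩ := exists_mvPolynomial_int hp
  refine ⟨k, P, ?_⟩
  have : (fun a : ℕ => ∃ x : Fin k → ℤ,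
      MvPolynomial.eval (Fin.cons (a : ℤ) x : Fin (k + 1) → ℤ) P = 0) = p := by
    funext a
    exact propext (hP a).symm
  rw [this]
  exact hnc

/-- the same with solutions in natural numbers -/
theorem exists_noncomputable_dioph_nat : ∃ (k : ℕ) (P : MvPolynomial (Fin (k + 1)) ℤ),
    ¬ ComputablePred (fun a : ℕ => ∃ x : Fin k → ℕ,
      MvPolynomial.eval (fun i => ((Fin.cons a x : Fin (k + 1) → ℕ) i : ℤ)) P = 0) := by
  obtain ⟨p, hp, hnc⟩ := exists_re_not_computable
  obtain ⟨k, P, hP⟩ := exists_mvPolynomial_nat hp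
  refine ⟨k, P, ?_⟩
  have : (fun a : ℕ => ∃ x : Fin k → ℕ,
      MvPolynomial.eval (fun i => ((Fin.cons a x : Fin (k + 1) → ℕ) i : ℤ)) P = 0) = p := by
    funext a
    exact propext (hP a).symm
  rw [this]
  exact hnc

end Pool.Agent.MRDP
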