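import Pool.Agent.Common_MRDP.Closure

set_option backward.isDefEq.respectTransparency false

/-!
Graphs of recursive functions (Nat.Partrec) are Diophantine; recursively enumerable sets are
Diophantine.
-/

namespace Pool.Agent.MRDP

open Finset Nat Dioph


section

variable {α : Type} {f g h : (α → ℕ) → ℕ}

/-- existential quantification, in the form used below -/
theorem exists_dioph {S : (α → ℕ) → ℕ → Prop}
    (hS : Dioph {w : Option α → ℕ | S (w ∘ some) (w none)}) :
    Dioph {v : α → ℕ | ∃ x, S v x} :=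
  Dioph.ex1_dioph hS

theorem pair_dioph (df : DiophFn f) (dg : DiophFn g) :
    DiophFn fun v => Nat.pair (f v) (g v) := by
  have h1 : Dioph {w : Option α → ℕ |
      (f (w ∘ some) < g (w ∘ some) ∧
        g (w ∘ some) * g (w ∘ some) + f (w ∘ some) = w none) ∨
      (g (w ∘ some) ≤ f (w ∘ some) ∧
        f (w ∘ some) * f (w ∘ some) + f (w ∘ some) + g (w ∘ some) = w none)} := by
    have df' := Dioph.reindex_diophFn (some : α → Option α) df
    have dg' := Dioph.reindex_diophFn (some : α → Option α) dg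
    exact Dioph.union
      ((Dioph.lt_dioph df' dg').inter (Dioph.eq_dioph (Dioph.add_dioph
        (Dioph.mul_dioph dg' dg') df') (Dioph.proj_dioph none)))
      ((Dioph.le_dioph dg' df').inter (Dioph.eq_dioph (Dioph.add_dioph (Dioph.add_dioph
        (Dioph.mul_dioph df' df') df') dg') (Dioph.proj_dioph none)))
  refine Dioph.ext h1 ?_
  intro w
  change (_ ∨ _) ↔ Nat.pair (f (w ∘ some)) (g (w ∘ some)) = w none
  rw [Nat.pair]
  split_ifs with hlt
  · constructor
    · rintro (⟨_, h⟩ | ⟨h, _⟩)
      · exact h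
      · omega
    · intro h; exact Or.inl ⟨hlt, h⟩
  · constructor
    · rintro (⟨h, _⟩ | ⟨_, h⟩)
      · omega
      · exact h
    · intro h; exact Or.inr ⟨by omega, h⟩

theorem unpair_fst_dioph (df : DiophFn f) : DiophFn fun v => (f v).unpair.1 := by
  have h1 : Dioph {w : Option α → ℕ | ∃ y, Nat.pair (w none) y = f (w ∘ some)} := by
    apply exists_dioph
    exact Dioph.eq_dioph (pair_dioph (Dioph.proj_dioph (some none)) (Dioph.proj_dioph none))
      (Dioph.reindex_diophFn (fun a => some (some a)) df)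
  refine Dioph.ext h1 ?_
  intro w
  change (∃ y, Nat.pair (w none) y = f (w ∘ some)) ↔ (f (w ∘ some)).unpair.1 = w none
  constructor
  · rintro ⟨y, hy⟩
    rw [← hy, Nat.unpair_pair]
  · intro h
    exact ⟨(f (w ∘ some)).unpair.2, by rw [← h, Nat.pair_unpair]⟩

theorem unpair_snd_dioph (df : DiophFn f) : DiophFn fun v => (f v).unpair.2 := by
  have h1 : Dioph {w : Option α → ℕ | ∃ y, Nat.pair y (w none) = f (w ∘ some)} := by
    apply exists_dioph
    exact Dioph.eq_dioph (pair_dioph (Dioph.proj_dioph none) (Dioph.proj_dioph (some none)))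
      (Dioph.reindex_diophFn (fun a => some (some a)) df)
  refine Dioph.ext h1 ?_
  intro w
  change (∃ y, Nat.pair y (w none) = f (w ∘ some)) ↔ (f (w ∘ some)).unpair.2 = w none
  constructor
  · rintro ⟨y, hy⟩
    rw [← hy, Nat.unpair_pair]
  · intro h
    exact ⟨(f (w ∘ some)).unpair.1, by rw [← h, Nat.pair_unpair]⟩

theorem beta_dioph (df : DiophFn f) (dg : DiophFn g) :
    DiophFn fun v => Nat.beta (f v) (g v) :=
  Dioph.mod_dioph (unpair_fst_dioph df)
    (Dioph.add_dioph (Dioph.mul_dioph (Dioph.add_dioph dg (Dioph.const_dioph 1))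
      (unpair_snd_dioph df)) (Dioph.const_dioph 1))

end

/-- the graph of a function (not necessarily total) on `ℕ` is Diophantine, in every context -/
def DG (f : ℕ →. ℕ) : Prop :=
  ∀ {α : Type} {g h : (α → ℕ) → ℕ}, DiophFn g → DiophFn h → Dioph {v : α → ℕ | h v ∈ f (g v)}

theorem DG.of_total {F : ℕ → ℕ}
    (hF : ∀ {α : Type} {g : (α → ℕ) → ℕ}, DiophFn g → DiophFn fun v => F (g v)) :
    DG (F : ℕ →. ℕ) := by
  intro α g h hg hh
  refine Dioph.ext (Dioph.eq_dioph hh (hF hg)) ?_
  intro v
  simp only [Set.mem_ofPred_eq, PFun.coe_val, Part.mem_some_iff]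

theorem DG.comp {f g : ℕ →. ℕ} (hf : DG f) (hg : DG g) : DG (fun n => g n >>= f) := by
  intro α a b ha hb
  have h1 : Dioph {v : α → ℕ | ∃ z, z ∈ g (a v) ∧ b v ∈ f z} := by
    apply exists_dioph
    exact (hg (Dioph.reindex_diophFn some ha) (Dioph.proj_dioph none)).inter
      (hf (Dioph.proj_dioph none) (Dioph.reindex_diophFn some hb))
  refine Dioph.ext h1 ?_
  intro v
  change (∃ z, z ∈ g (a v) ∧ b v ∈ f z) ↔ b v ∈ (g (a v)).bind f
  exact Part.mem_bind_iff.symm

theorem DG.pair {f g : ℕ →. ℕ} (hf : DG f) (hg : DG g) :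
    DG (fun n => Nat.pair <$> f n <*> g n) := by
  intro α a b ha hb
  have h1 : Dioph {v : α → ℕ | (b v).unpair.1 ∈ f (a v) ∧ (b v).unpair.2 ∈ g (a v)} :=
    (hf ha (unpair_fst_dioph hb)).inter (hg ha (unpair_snd_dioph hb))
  refine Dioph.ext h1 ?_
  intro v
  change ((b v).unpair.1 ∈ f (a v) ∧ (b v).unpair.2 ∈ g (a v)) ↔
    b v ∈ (Nat.pair <$> f (a v) <*> g (a v))
  simp only [seq_eq_bind_map, Part.bind_eq_bind, Part.map_eq_map, Part.mem_bind_iff,
    Part.mem_map_iff]
  constructor
  · rintro ⟨h1, h2⟩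
    exact ⟨_, ⟨_, h1, rfl⟩, _, h2, Nat.pair_unpair _⟩
  · rintro ⟨_, ⟨x, hx, rfl⟩, y, hy, h⟩
    rw [← h, Nat.unpair_pair]
    exact ⟨hx, hy⟩

/-- recursion through a coded sequence of values -/
theorem mem_rec_iff (f : Part ℕ) (g : ℕ → ℕ →. ℕ) (n y : ℕ) :
    y ∈ (Nat.rec f (fun k IH => IH.bind (g k)) n : Part ℕ) ↔
    ∃ s : ℕ, Nat.beta s 0 ∈ f ∧ (∀ k < n, Nat.beta s (k + 1) ∈ g k (Nat.beta s k)) ∧
      Nat.beta s n = y := by
  constructor
  · intro hy
    have : ∀ n y, y ∈ (Nat.rec f (fun k IH => IH.bind (g k)) n : Part ℕ) →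
        ∃ l : List ℕ, ∃ hl : l.length = n + 1, l[0] ∈ f ∧
          (∀ k (hk : k < n), l[k + 1] ∈ g k l[k]) ∧ l[n] = y := by
      intro n
      induction n with
      | zero =>
        intro y hy
        exact ⟨[y], rfl, hy, fun k hk => absurd hk (Nat.not_lt_zero _), rfl⟩
      | succ n ih =>
        intro y hy
        obtain ⟨z, hz, hyz⟩ := Part.mem_bind_iff.1 hy
        obtain ⟨l, hl, h0, h1, h2⟩ := ih z hz
        refine ⟨l ++ [y], by simp [hl], ?_, ?_, ?_⟩
        · rw [List.getElem_append_left (by omega)]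
          exact h0
        · intro k hk
          rcases Nat.lt_or_ge k n with h | h
          · rw [List.getElem_append_left (by omega), List.getElem_append_left (by omega)]
            exact h1 k h
          · have hkn : k = n := by omega
            subst hkn
            rw [List.getElem_append_left (by omega), List.getElem_append_right (by omega)]
            simp only [List.getElem_singleton]
            rw [h2]
            exact hyz
        · rw [List.getElem_append_right (by omega)]
          simp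
    obtain ⟨l, hl, h0, h1, h2⟩ := this n y hy
    refine ⟨Nat.unbeta l, ?_, ?_, ?_⟩
    · have := Nat.beta_unbeta_coe l ⟨0, by omega⟩
      simp only [Fin.getElem_fin] at this
      rw [this]
      exact h0
    · intro k hk
      have e1 := Nat.beta_unbeta_coe l ⟨k, by omega⟩
      have e2 := Nat.beta_unbeta_coe l ⟨k + 1, by omega⟩
      simp only [Fin.getElem_fin] at e1 e2
      rw [e1, e2]
      exact h1 k hk
    · have := Nat.beta_unbeta_coe l ⟨n, by omega⟩
      simp only [Fin.getElem_fin] at this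
      rw [this]
      exact h2
  · rintro ⟨s, h0, h1, h2⟩
    have : ∀ m, m ≤ n → Nat.beta s m ∈ (Nat.rec f (fun k IH => IH.bind (g k)) m : Part ℕ) := by
      intro m
      induction m with
      | zero => intro _; exact h0
      | succ m ih =>
        intro hm
        exact Part.mem_bind_iff.2 ⟨_, ih (by omega), h1 m (by omega)⟩
    rw [← h2]
    exact this n le_rfl

theorem DG.prec {f g : ℕ →. ℕ} (hf : DG f) (hg : DG g) :
    DG (Nat.unpaired fun a n => n.rec (f a) fun y IH => do
      let i ← IH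
      g (Nat.pair a (Nat.pair y i))) := by
  intro α a b ha hb
  have h1 : Dioph {v : α → ℕ | ∃ s, Nat.beta s 0 ∈ f (a v).unpair.1 ∧
      (∀ k < (a v).unpair.2, Nat.beta s (k + 1) ∈
        g (Nat.pair (a v).unpair.1 (Nat.pair k (Nat.beta s k)))) ∧
      Nat.beta s (a v).unpair.2 = b v} := by
    apply exists_dioph
    have ha' := Dioph.reindex_diophFn (some : α → Option α) ha
    have hb' := Dioph.reindex_diophFn (some : α → Option α) hb
    have ha'' := Dioph.reindex_diophFn (fun x : α => (some (some x) : Option (Option α))) ha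
    have hn : DiophFn (fun w : Option α → ℕ => w none) := Dioph.proj_dioph none
    have hk : DiophFn (fun w : Option (Option α) → ℕ => w none) := Dioph.proj_dioph none
    have hs : DiophFn (fun w : Option (Option α) → ℕ => w (some none)) :=
      Dioph.proj_dioph (some none)
    apply (hf (unpair_fst_dioph ha') (beta_dioph hn (Dioph.const_dioph 0))).inter
    apply Dioph.inter _ (Dioph.eq_dioph (beta_dioph hn (unpair_snd_dioph ha')) hb')
    exact forall_lt_dioph (unpair_snd_dioph ha')
      (hg (pair_dioph (unpair_fst_dioph ha'') (pair_dioph hk (beta_dioph hs hk)))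
        (beta_dioph hs (Dioph.add_dioph hk (Dioph.const_dioph 1))))
  refine Dioph.ext h1 ?_
  intro v
  exact (mem_rec_iff (f (a v).unpair.1)
    (fun k i => g (Nat.pair (a v).unpair.1 (Nat.pair k i))) (a v).unpair.2 (b v)).symm

theorem DG.rfind {f : ℕ →. ℕ} (hf : DG f) :
    DG (fun a => Nat.rfind fun n => (fun m => m = 0) <$> f (Nat.pair a n)) := by
  intro α a b ha hb
  have h1 : Dioph {v : α → ℕ | 0 ∈ f (Nat.pair (a v) (b v)) ∧
      (∀ k < b v, ∃ y, y + 1 ∈ f (Nat.pair (a v) k))} := by
    apply (hf (pair_dioph ha hb) (Dioph.const_dioph 0)).inter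
    have ha'' := Dioph.reindex_diophFn (fun x : α => (some (some x) : Option (Option α))) ha
    have hk : DiophFn (fun w : Option (Option α) → ℕ => w (some none)) :=
      Dioph.proj_dioph (some none)
    have hy : DiophFn (fun w : Option (Option α) → ℕ => w none) := Dioph.proj_dioph none
    have h2 : Dioph {w : Option α → ℕ | ∃ y, y + 1 ∈ f (Nat.pair (a (w ∘ some)) (w none))} := by
      apply exists_dioph
      exact hf (pair_dioph ha'' hk) (Dioph.add_dioph hy (Dioph.const_dioph 1))
    exact forall_lt_dioph hb h2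
  refine Dioph.ext h1 ?_
  intro v
  change (0 ∈ f (Nat.pair (a v) (b v)) ∧ (∀ k < b v, ∃ y, y + 1 ∈ f (Nat.pair (a v) k))) ↔
    b v ∈ Nat.rfind fun n => (fun m => m = 0) <$> f (Nat.pair (a v) n)
  refine Iff.trans ?_ Nat.mem_rfind.symm
  simp only [Part.map_eq_map, Part.mem_map_iff, decide_eq_true_eq, decide_eq_false_iff_not]
  constructor
  · rintro ⟨h0, h1⟩
    refine ⟨⟨0, h0, rfl⟩, ?_⟩
    intro m hm
    obtain ⟨y, hy⟩ := h1 m hm
    exact ⟨y + 1, hy, by omega⟩
  · rintro ⟨⟨m, hm, h0⟩, h1⟩
    subst h0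
    refine ⟨hm, ?_⟩
    intro k hk
    obtain ⟨y, hy, hy0⟩ := h1 hk
    exact ⟨y - 1, by rwa [Nat.sub_add_cancel (Nat.pos_of_ne_zero hy0)]⟩

/-- graphs of `Nat.Partrec` functions are Diophantine -/
theorem DG.of_partrec {f : ℕ →. ℕ} (hf : Nat.Partrec f) : DG f := by
  induction hf with
  | zero =>
    exact DG.of_total (F := fun _ => 0) (fun _ => Dioph.const_dioph 0)
  | succ => exact DG.of_total (F := Nat.succ) (fun hg => Dioph.add_dioph hg (Dioph.const_dioph 1))
  | left => exact DG.of_total (fun hg => unpair_fst_dioph hg)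
  | right => exact DG.of_total (fun hg => unpair_snd_dioph hg)
  | pair _ _ hf hg => exact DG.pair hf hg
  | comp _ _ hf hg => exact DG.comp hf hg
  | prec _ _ hf hg => exact DG.prec hf hg
  | rfind _ hf => exact DG.rfind hf

/-- **MRDP theorem**: recursively enumerable sets of natural numbers are Diophantine -/
theorem dioph_of_rePred {p : ℕ → Prop} (hp : REPred p) : Dioph {v : Unit → ℕ | p (v ())} := by
  have h1 : Nat.Partrec fun n => (Part.assert (p n) fun _ => Part.some 0 : Part ℕ) := by
    have h2 : Partrec fun n => (Part.assert (p n) fun _ => Part.some () : Part Unit) := hp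
    have h3 := h2.map (Computable.const (0 : ℕ)).to₂
    refine Partrec.nat_iff.1 (h3.of_eq ?_)
    intro n
    ext x
    simp only [Part.mem_map_iff, Part.mem_assert_iff, Part.mem_some_iff]
    constructor
    · rintro ⟨_, ⟨h, _⟩, rfl⟩
      exact ⟨h, rfl⟩
    · rintro ⟨h, rfl⟩
      exact ⟨(), ⟨h, trivial⟩, rfl⟩
  have h2 := DG.of_partrec h1 (Dioph.proj_dioph (α := Unit) ()) (Dioph.const_dioph 0)
  refine Dioph.ext h2 ?_
  intro v
  simp [Part.mem_assert_iff]

end Pool.Agent.MRDP
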